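import Pool.Agent.H7.KC.Stmts
import Pool.Agent.H65.IA.LOT

/-!
Row LOJ of the board kc15 (MP_fd41b2_co), helper22: the local inequality with debts.
-/

set_option autoImplicit false

open Finset

namespace Pool.KC7

open Pool.Agent.H23.KT Pool.Agent.H46.KW Pool.KQ Pool.GT7 Pool.GU7 Pool.HZ7 Pool.IA7

open Pool.IA7.LOTx in
theorem loj_thm (h1 : GCJStmt) (h2 : MLGStmt) (h3 : CMPStmt) (h4 : UCLStmt) (h5 : XLOStmt)
    (h6 : SPXStmt) (h7 : ZSJStmt) (h8 : TRVStmt) : LOJStmt := by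
  intro p w r hprt C ε hC hε
  obtain ⟨hprz, hφ0, hφ1, _, _, _⟩ := h1 p w r hprt
  have hwp := hprt.wp
  have hrp := hprt.rp
  have hr1 : 1 ≤ r := by have := hprz.rb; omega
  have hrR : (1 : ℝ) ≤ r := by exact_mod_cast hr1
  have hrpR : (r : ℝ) ≤ p := by exact_mod_cast hrp
  have hp0 : (0 : ℝ) ≤ p := Nat.cast_nonneg p
  set φ := pt p w r with hφ
  set c := c1 p w with hc
  have hc1 : 1 ≤ c := by
    rw [hc]
    unfold c1
    have : 0 < (p + 2).choose (w + 1) := Nat.choose_pos (by omega)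
    exact_mod_cast this
  have hc0 : 0 < c := by linarith
  have hcφ : 0 < c * φ := mul_pos hc0 hφ0
  set ch : ℝ := ((p + 1).choose w : ℝ) with hch
  have hch0 : 0 ≤ ch := Nat.cast_nonneg _
  set ρ : ℝ := (r : ℝ) / (((p : ℝ) + 3 - r) * ((p : ℝ) + 2)) with hρ
  have hbr : (0 : ℝ) < (p : ℝ) + 3 - r := by linarith
  have hρc : c * φ * ρ = ch / 2 := by
    have e1 : ((p + 2).choose (w + 1) : ℝ) * ((w : ℝ) + 1) = ((p : ℝ) + 2) * ch := by
      have := Nat.add_one_mul_choose_eq (p + 1) w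
      rw [hch]
      have e2 : (((p + 1 + 1) * (p + 1).choose w : ℕ) : ℝ) =
          (((p + 1 + 1).choose (w + 1) * (w + 1) : ℕ) : ℝ) := by exact_mod_cast this
      push_cast at e2
      have e3 : (p + 1 + 1).choose (w + 1) = (p + 2).choose (w + 1) := rfl
      rw [e3] at e2
      linarith
    rw [hc, hφ, hρ]
    unfold c1 pt
    have hr0 : (r : ℝ) ≠ 0 := by linarith
    have hp2 : (p : ℝ) + 2 ≠ 0 := by linarith
    have hb0 : (p : ℝ) + 3 - r ≠ 0 := hbr.ne'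
    have e4 : ((p + 2).choose (w + 1) : ℝ) *
        (((w : ℝ) + 1) * ((p : ℝ) + 3 - r) / (2 * r)) *
        ((r : ℝ) / (((p : ℝ) + 3 - r) * ((p : ℝ) + 2))) =
        (((p + 2).choose (w + 1) : ℝ) * ((w : ℝ) + 1)) / (2 * ((p : ℝ) + 2)) := by
      field_simp
    rw [e4, e1]
    field_simp
  have hb3 : (0 : ℝ) < (p : ℝ) + 3 := by linarith
  -- the choice of `f`
  obtain ⟨f₀, hf00, hf01, aC, hCMP⟩ := h3 p w hwp C (ε / 8) hC (by linarith)
  set Kf : ℝ := 16 * (C * (c * φ) * ((p : ℝ) + 3)) with hKf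
  have hKf0 : 0 < Kf := by rw [hKf]; positivity
  have hb64 : (0 : ℝ) < 1 / (64 * ((p : ℝ) + 3) ^ 2) := by positivity
  have hb12 : 1 / (64 * ((p : ℝ) + 3) ^ 2) ≤ (1 : ℝ) / 2 := by
    apply one_div_le_one_div_of_le (by norm_num)
    nlinarith
  set f : ℝ := min f₀ (min (ε / Kf) (1 / (64 * ((p : ℝ) + 3) ^ 2))) with hf
  have hf0 : 0 < f := lt_min hf00 (lt_min (div_pos hε hKf0) hb64)
  have hff₀ : f ≤ f₀ := min_le_left _ _
  have hf64 : f ≤ 1 / (64 * ((p : ℝ) + 3) ^ 2) := (min_le_right _ _).trans (min_le_right _ _)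
  have hfK : C * (c * φ) * ((p : ℝ) + 3) * f ≤ ε / 16 := by
    have e1 : f ≤ ε / Kf := (min_le_right _ _).trans (min_le_left _ _)
    have e2 : Kf * f ≤ ε := by
      rw [le_div_iff₀ hKf0] at e1
      linarith
    rw [hKf] at e2
    linarith
  refine ⟨f, hf0, hff₀.trans hf01, fun C' hC' => ?_⟩
  -- the choice of `e₀`
  obtain ⟨eZ, heZ0, heZ1, hZ⟩ := h7 p w r hprt (ε / (8 * C')) (by positivity)
  obtain ⟨aZ, hZSJ⟩ := hZ C hC
  set K1 : ℝ := 8 * (c * φ * (2 * C') * 2 ^ (p + 3)) with hK1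
  set K2 : ℝ := 16 * (C * 2 ^ (p + 2) * (ch / 2)) + 1 with hK2
  set K3 : ℝ := 8 * (c * (2 * C') * ((w + 1 : ℕ) : ℝ)) with hK3
  have hK10 : 0 < K1 := by rw [hK1]; positivity
  have hK20 : 0 < K2 := by rw [hK2]; positivity
  have hK30 : 0 < K3 := by rw [hK3]; positivity
  obtain ⟨E, hE0, hE1, hE2, hE3, hE4, hE5, hE6⟩ : ∃ E : ℝ, 0 < E ∧ E ≤ f₀ ∧ E ≤ eZ ∧
      K1 * E ≤ ε ∧ K2 * E ≤ ε ∧ K3 * E ≤ ε ∧ 2 ^ (p + 2) * E ≤ 1 := by
    refine ⟨min f₀ (min eZ (min (ε / K1) (min (ε / K2) (min (ε / K3) (1 / 2 ^ (p + 2)))))),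
      ?_, ?_, ?_, ?_, ?_, ?_, ?_⟩
    · refine lt_min hf00 (lt_min heZ0 (lt_min (div_pos hε hK10) (lt_min (div_pos hε hK20)
        (lt_min (div_pos hε hK30) (by positivity)))))
    · exact min_le_left _ _
    · exact (min_le_right _ _).trans (min_le_left _ _)
    · have e1 : min f₀ (min eZ (min (ε / K1) (min (ε / K2) (min (ε / K3) (1 / 2 ^ (p + 2)))))) ≤
          ε / K1 := (min_le_right _ _).trans ((min_le_right _ _).trans (min_le_left _ _))
      rw [le_div_iff₀ hK10] at e1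
      linarith
    · have e1 : min f₀ (min eZ (min (ε / K1) (min (ε / K2) (min (ε / K3) (1 / 2 ^ (p + 2)))))) ≤
          ε / K2 := (min_le_right _ _).trans ((min_le_right _ _).trans ((min_le_right _ _).trans
            (min_le_left _ _)))
      rw [le_div_iff₀ hK20] at e1
      linarith
    · have e1 : min f₀ (min eZ (min (ε / K1) (min (ε / K2) (min (ε / K3) (1 / 2 ^ (p + 2)))))) ≤
          ε / K3 := (min_le_right _ _).trans ((min_le_right _ _).trans ((min_le_right _ _).trans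
            ((min_le_right _ _).trans (min_le_left _ _))))
      rw [le_div_iff₀ hK30] at e1
      linarith
    · have e1 : min f₀ (min eZ (min (ε / K1) (min (ε / K2) (min (ε / K3) (1 / 2 ^ (p + 2)))))) ≤
          1 / 2 ^ (p + 2) := (min_le_right _ _).trans ((min_le_right _ _).trans
            ((min_le_right _ _).trans ((min_le_right _ _).trans (min_le_right _ _))))
      have h2p : (0 : ℝ) < 2 ^ (p + 2) := by positivity
      rw [le_div_iff₀ h2p] at e1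
      linarith
  refine ⟨E, hE0, hE2.trans (heZ1.trans hb12), ?_⟩
  -- the choice of `a₀`
  set K4 : ℝ := c * φ * r * C' * ((p : ℝ) + 4) ^ (p + 2) with hK4
  set K5 : ℝ := C' ^ 2 * ((p : ℝ) + 4) ^ w with hK5
  obtain ⟨aK, haK⟩ := exists_nat_ge (8 * (K4 + K5 + K3) / ε)
  have hK40 : 0 ≤ K4 := by rw [hK4]; positivity
  have hK50 : 0 ≤ K5 := by rw [hK5]; positivity
  refine ⟨max (max aC aZ) (max (max aK r) 2), fun a ha V _ G e W P U U₀ he0 heE hS hUU hUi hCB hWΔ hWC => ?_⟩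
  have haC : aC ≤ a := (le_max_left _ _).trans ((le_max_left _ _).trans ha)
  have haZ : aZ ≤ a := (le_max_right _ _).trans ((le_max_left _ _).trans ha)
  have haK' : aK ≤ a := (le_max_left _ _).trans ((le_max_left _ _).trans
    ((le_max_right _ _).trans ha))
  have har : r ≤ a := (le_max_right _ _).trans ((le_max_left _ _).trans
    ((le_max_right _ _).trans ha))
  have ha2 : 2 ≤ a := (le_max_right _ _).trans ((le_max_right _ _).trans ha)
  have ha2R : (2 : ℝ) ≤ a := by exact_mod_cast ha2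
  have ha0R : (0 : ℝ) < a := by linarith
  have harR : (r : ℝ) ≤ a := by exact_mod_cast har
  have hKa : 8 * (K4 + K5 + K3) ≤ ε * a := by
    have e1 : 8 * (K4 + K5 + K3) / ε ≤ a := haK.trans (by exact_mod_cast haK')
    rw [div_le_iff₀ hε] at e1
    linarith
  have he12 : e ≤ 1 / 2 := heE.trans (hE2.trans (heZ1.trans hb12))
  have he1 : e ≤ 1 := by linarith
  have hPar := hS.par
  have hcW := card_W hS.disU hS.cov
  have hcX := card_un hPar
  set X := un P with hX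
  set Δ : ℕ := (p + 3) * a + r with hΔ
  -- the numbers
  have hXΔ : X.card ≤ Δ := by omega
  obtain ⟨x, hx⟩ : ∃ x : ℕ, X.card + x = Δ := ⟨Δ - X.card, by omega⟩
  have hxR : ((Δ : ℕ) : ℝ) - X.card = x := by
    have : ((X.card + x : ℕ) : ℝ) = (Δ : ℝ) := by rw [hx]
    push_cast at this
    linarith
  set u : ℝ := (U.card : ℝ) with hu
  have hu0 : 0 ≤ u := Nat.cast_nonneg _
  have huC : u ≤ C' := hS.cU
  set d : ℝ := ((Δ : ℕ) : ℝ) - W.card with hd
  have hdC : d ≤ C' := by rw [hd]; linarith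
  have hxd : (x : ℝ) = d + u := by
    have : (W.card : ℝ) = X.card + u := by rw [hcW]; push_cast; rfl
    rw [hd, ← hxR, this]
    ring
  have hxC : (x : ℝ) ≤ 2 * C' := by linarith
  have hx0 : (0 : ℝ) ≤ x := Nat.cast_nonneg _
  have hWR : (W.card : ℝ) ≤ ((p : ℝ) + 4) * a := by
    have e1 : (W.card : ℝ) ≤ (Δ : ℝ) := by exact_mod_cast hWΔ
    rw [hΔ] at e1
    push_cast at e1
    linarith
  set A : ℝ := (a : ℝ) ^ (w + 1) with hA
  set Aw : ℝ := (a : ℝ) ^ w with hAw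
  have hAAw : A = Aw * a := by rw [hA, hAw, pow_succ]
  have hA0 : 0 < A := by rw [hA]; positivity
  have hAw0 : 0 < Aw := by rw [hAw]; positivity
  set M : ℝ := Mt p w r a with hM
  have hM0 : 0 ≤ M := by
    rw [hM]
    unfold Mt
    positivity
  have hMa : M * (a : ℝ) ^ (p + 3) = c * φ * A := by
    rw [hM]
    unfold Mt
    rw [div_mul_cancel₀ _ (by positivity)]
  have hMa2 : M * (a : ℝ) ^ (p + 2) = c * φ * Aw := by
    have e1 : M * (a : ℝ) ^ (p + 2) * a = c * φ * Aw * a := by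
      calc M * (a : ℝ) ^ (p + 2) * a = M * (a : ℝ) ^ (p + 3) := by ring
        _ = c * φ * A := hMa
        _ = c * φ * Aw * a := by rw [hAAw]; ring
    exact mul_right_cancel₀ ha0R.ne' e1
  set tt : ℝ := (tot G P : ℝ) with htt
  have htt0 : 0 ≤ tt := Nat.cast_nonneg _
  have httC : tt ≤ C * a := hS.tot
  -- (1)
  have g1 := mul_le_mul_of_nonneg_left (h6 G p r a W P U hPar hS.disU hS.cov) hM0
  rw [split, ← hX, ← hΔ, hxR, mul_add, mul_sub, mul_add] at g1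
  -- (2)
  have hN : ((clq G X (p + 3)).card : ℝ) ≤ (1 + e) ^ (p + 3) * (a : ℝ) ^ (p + 3) := by
    have := card_N h8 G P hPar ((1 + e) * a) hS.hi
    rwa [mul_pow] at this
  have g2 := H2 c φ A ((clq G X (p + 3)).card : ℝ) x M e E C' ε ((a : ℝ) ^ (p + 3)) (p + 3)
    hA0.le hx0 hxC hM0 he0 he1 hcφ.le hMa hN heE (by rw [hK1] at hE3; linarith)
  -- (3)
  have g3' := h2 G p w r a e f P ⟨hwp, hr1, hrp⟩ he0 hf0.le hPar hS.hi hS.mis
  rw [mul_pow] at g3'
  have g3 := H3 c φ A Aw M (∑ L ∈ clq G X (p + 3), mm G p r X L) tt e E C a ρ ((p : ℝ) + 3) ch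
    ε f (p + 2) ((a : ℝ) ^ (p + 2)) hAw0.le hAAw ha0R.le hM0 he0 he1 hcφ.le hch0 hb3.le
    hf0.le htt0 httC hMa2 g3' hρc heE (by rw [hK2] at hE4; nlinarith) hE6 hfK
  -- (4)
  have g4 : M * ((r : ℝ) * u * (W.card : ℝ) ^ (p + 2)) ≤ ε / 8 * A := by
    have e1 : (W.card : ℝ) ^ (p + 2) ≤ ((p : ℝ) + 4) ^ (p + 2) * (a : ℝ) ^ (p + 2) := by
      rw [← mul_pow]
      exact pow_le_pow_left₀ (Nat.cast_nonneg _) hWR _
    have e2 : (r : ℝ) * u * (W.card : ℝ) ^ (p + 2) ≤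
        r * C' * (((p : ℝ) + 4) ^ (p + 2) * (a : ℝ) ^ (p + 2)) := by
      refine mul_le_mul ?_ e1 (by positivity) (by positivity)
      exact mul_le_mul_of_nonneg_left huC (Nat.cast_nonneg _)
    have e3 := mul_le_mul_of_nonneg_left e2 hM0
    have e4 : M * (r * C' * (((p : ℝ) + 4) ^ (p + 2) * (a : ℝ) ^ (p + 2))) = K4 * Aw := by
      calc M * (r * C' * (((p : ℝ) + 4) ^ (p + 2) * (a : ℝ) ^ (p + 2))) =
          (M * (a : ℝ) ^ (p + 2)) * (r * C' * ((p : ℝ) + 4) ^ (p + 2)) := by ring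
        _ = K4 * Aw := by rw [hMa2, hK4]; ring
    have e5 : K4 * Aw ≤ ε / 8 * a * Aw := mul_le_mul_of_nonneg_right (by linarith) hAw0.le
    rw [hAAw]
    linarith
  -- (5)
  have hlo0 : (0 : ℝ) ≤ (1 - e) * a := mul_nonneg (by linarith) ha0R.le
  have g5 := h5 p w a r x (⌊(1 - e) * (a : ℝ)⌋₊) (sz P) hrp (by
      unfold sz
      rw [← hcX, hx]) (by
      intro i
      unfold sz
      have e1 : ((⌊(1 - e) * (a : ℝ)⌋₊ : ℕ) : ℝ) ≤ ((P i).card : ℝ) :=
        (Nat.floor_le hlo0).trans (hS.lo i)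
      exact_mod_cast e1)
  have g5' : (es (sz P) (w + 2) : ℝ) + x * (c * ((⌊(1 - e) * (a : ℝ)⌋₊ : ℕ) : ℝ) ^ (w + 1)) ≤
      (TT (p + 3) (w + 2) a r : ℝ) := by
    have e1 : ((es (sz P) (w + 2) + x * ((p + 2).choose (w + 1) *
        ⌊(1 - e) * (a : ℝ)⌋₊ ^ (w + 1)) : ℕ) : ℝ) ≤ (TT (p + 3) (w + 2) a r : ℝ) := by
      exact_mod_cast g5
    push_cast at e1
    rw [hc]
    unfold c1
    exact e1
  have g9 := H9 a e ((⌊(1 - e) * (a : ℝ)⌋₊ : ℕ) : ℝ) x c C' ε E (w + 1) ha2R he0 he12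
    (by have := Nat.lt_floor_add_one ((1 - e) * (a : ℝ)); linarith) hx0 hxC hc0.le heE
    (by rw [hK3] at hE5; linarith) (by
      rw [hK3] at hKa
      have : 0 ≤ c * (2 * C') * ((w + 1 : ℕ) : ℝ) := by positivity
      nlinarith)
  rw [← hA] at g9
  -- (6)
  have g6 := hCMP a haC G e f P he0 (heE.trans hE1) hff₀ hPar (fun i => ⟨hS.lo i, hS.hi i⟩)
    hS.mis hS.tot
  rw [← hX, ← htt, ← hch, ← hAw, ← hA] at g6
  -- (7)
  have g7 : (kc G W (w + 2) : ℝ) ≤ kc G X (w + 2) +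
      ∑ z ∈ U, (kc G (nb G X z) (w + 1) : ℝ) + u ^ 2 * (W.card : ℝ) ^ w := by
    have e1 := h4 G p w W P U hS.disU hS.cov
    have e2 : ((kc G W (w + 2) : ℕ) : ℝ) ≤ ((kc G (un P) (w + 2) +
        ∑ z ∈ U, kc G (nb G (un P) z) (w + 1) + U.card ^ 2 * W.card ^ w : ℕ) : ℝ) := by
      exact_mod_cast e1
    push_cast at e2
    exact e2
  -- (8)
  have g8 : ∑ z ∈ U, (kc G (nb G X z) (w + 1) : ℝ) + s3 p * A * U₀.card ≤
      u * (c * (1 - φ) * A) + M * ∑ z ∈ U, TZ G p r X z + ε / 8 * A +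
        ∑ z ∈ U₀, ndj G p w r a X z := by
    have e0 : ∀ z ∈ U₀, (kc G (nb G X z) (w + 1) : ℝ) + s3 p * A ≤
        c * (1 - φ) * A + M * TZ G p r X z + ndj G p w r a X z := by
      intro z _
      have := le_max_right 0 ((kc G (nb G X z) (w + 1) : ℝ) -
        c1 p w * (1 - pt p w r) * (a : ℝ) ^ (w + 1) - Mt p w r a * TZ G p r X z +
        s3 p * (a : ℝ) ^ (w + 1))
      unfold ndj
      linarith
    have e1 : ∀ z ∈ U \ U₀, (kc G (nb G X z) (w + 1) : ℝ) ≤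
        c * (1 - φ) * A + M * TZ G p r X z + ε / (8 * C') * A := by
      intro z hz
      obtain ⟨i, hi1, hi2⟩ := hUi z hz
      exact hZSJ a haZ G e f C' W P U he0 (heE.trans hE2) hf64 hS hCB z
        ((hS.cov z).2 (Or.inl (mem_sdiff.1 hz).1)) i hi1 hi2
    have e2 := sum_le_sum e0
    have e3 := sum_le_sum e1
    rw [sum_add_distrib, sum_add_distrib, sum_add_distrib, sum_const, sum_const, nsmul_eq_mul,
      nsmul_eq_mul, ← mul_sum] at e2
    rw [sum_add_distrib, sum_add_distrib, sum_const, sum_const, nsmul_eq_mul,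
      nsmul_eq_mul, ← mul_sum] at e3
    have s1 : ∑ z ∈ U, (kc G (nb G X z) (w + 1) : ℝ) =
        ∑ z ∈ U \ U₀, (kc G (nb G X z) (w + 1) : ℝ) + ∑ z ∈ U₀, (kc G (nb G X z) (w + 1) : ℝ) :=
      (sum_sdiff hUU).symm
    have s2 : ∑ z ∈ U, TZ G p r X z = ∑ z ∈ U \ U₀, TZ G p r X z + ∑ z ∈ U₀, TZ G p r X z :=
      (sum_sdiff hUU).symm
    have s4 : u = ((U \ U₀).card : ℝ) + (U₀.card : ℝ) := by
      rw [hu]
      have := card_sdiff_add_card_eq_card hUU
      exact_mod_cast this.symm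
    have s5 : ((U \ U₀).card : ℝ) ≤ C' := by
      have : (0 : ℝ) ≤ (U₀.card : ℝ) := Nat.cast_nonneg _
      linarith
    have e6 : ((U \ U₀).card : ℝ) * (ε / (8 * C') * A) ≤ ε / 8 * A := by
      have e4 : ((U \ U₀).card : ℝ) * (ε / (8 * C')) ≤ C' * (ε / (8 * C')) :=
        mul_le_mul_of_nonneg_right s5 (by positivity)
      have e5 : C' * (ε / (8 * C')) = ε / 8 := by field_simp
      calc ((U \ U₀).card : ℝ) * (ε / (8 * C') * A) =
          ((U \ U₀).card : ℝ) * (ε / (8 * C')) * A := by ring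
        _ ≤ ε / 8 * A := mul_le_mul_of_nonneg_right (by linarith) hA0.le
    have e7 : u * (c * (1 - φ) * A) = ((U \ U₀).card : ℝ) * (c * (1 - φ) * A) +
        (U₀.card : ℝ) * (c * (1 - φ) * A) := by
      rw [s4, add_mul]
    have e8 : M * ∑ z ∈ U, TZ G p r X z = M * ∑ z ∈ U \ U₀, TZ G p r X z +
        M * ∑ z ∈ U₀, TZ G p r X z := by
      rw [s2, mul_add]
    rw [s1, e7, e8]
    linarith
  -- (10)
  have g10 : u ^ 2 * (W.card : ℝ) ^ w ≤ ε / 8 * A := by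
    have e1 : (W.card : ℝ) ^ w ≤ ((p : ℝ) + 4) ^ w * Aw := by
      rw [hAw, ← mul_pow]
      exact pow_le_pow_left₀ (Nat.cast_nonneg _) hWR _
    have e2 : u ^ 2 ≤ C' ^ 2 := pow_le_pow_left₀ hu0 huC 2
    have e3 : u ^ 2 * (W.card : ℝ) ^ w ≤ C' ^ 2 * (((p : ℝ) + 4) ^ w * Aw) :=
      mul_le_mul e2 e1 (by positivity) (by positivity)
    have e4 : C' ^ 2 * (((p : ℝ) + 4) ^ w * Aw) = K5 * Aw := by rw [hK5]; ring
    have e5 : K5 * Aw ≤ ε / 8 * a * Aw := mul_le_mul_of_nonneg_right (by linarith) hAw0.le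
    rw [hAAw]
    linarith
  unfold df
  have e : c * φ * A * x + (1 - φ) * c * A * d + u * (c * (1 - φ) * A) = c * x * A := by
    rw [hxd]; ring
  linarith

end Pool.KC7
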